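import Mathlib

/-!
# FAM-Q1: absolute values on the fraction field of a Dedekind domain
-/

namespace Pool.Agent.Helper81.FAM

open IsDedekindDomain Function
open scoped NNReal

universe u

set_option backward.isDefEq.respectTransparency false in
private lemma Q1_val {O L : Type u} [CommRing O] [IsDedekindDomain O] [Field L] [Algebra O L]
    [IsFractionRing O L] (v : HeightOneSpectrum O) {b : ℝ≥0} (hb : 1 < b) {a : O} (ha : a ≠ 0) :
    v.adicAbv (K := L) hb (algebraMap O L a) * (b : ℝ) ^
      ((Associates.mk v.asIdeal).count (Associates.mk (Ideal.span {a})).factors) = 1 := by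
  have h0 : v.valuation L (algebraMap O L a) ≠ 0 := (v.valuation L).ne_zero_iff.mpr
      ((FaithfulSMul.algebraMap_eq_zero_iff O L).not.2 ha)
  have h1 : v.adicAbv (K := L) hb (algebraMap O L a) =
      ((b ^ (WithZero.unzero h0).toAdd : ℝ≥0) : ℝ) := by
    change ((WithZeroMulInt.toNNReal (ne_zero_of_lt hb) _ : ℝ≥0) : ℝ) = _
    rw [WithZeroMulInt.toNNReal_neg_apply _ h0]
  rw [h1]
  push_cast
  rw [← zpow_natCast, ← zpow_add₀ <| mod_cast (zero_lt_one.trans hb).ne']
  rw [zpow_eq_one_iff_right₀ (NNReal.coe_nonneg _) (mod_cast hb.ne')]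
  simp [HeightOneSpectrum.valuation_of_algebraMap, HeightOneSpectrum.intValuation_if_neg, ha]

/-- Q1: absolute values on the fraction field of a Dedekind domain, weighted by a multiplicative
function on ideals. -/
theorem dedekind_abs {O L : Type u} [CommRing O] [IsDedekindDomain O] [Field L] [Algebra O L]
    [IsFractionRing O L] (D : Ideal O →*₀ ℝ) (hD : ∀ I : Ideal O, I ≠ ⊥ → 0 < D I ∧ D I ≤ 1) :
    ∃ V : Set (AbsoluteValue L ℝ), (∀ v ∈ V, IsNonarchimedean v) ∧
      (∀ v ∈ V, ∀ a : O, v (algebraMap O L a) ≤ 1) ∧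
      (∀ v ∈ V, ∃ P : Ideal O, P.IsPrime ∧ P ≠ ⊥ ∧ D P < 1 ∧
        ∀ a ∈ P, v (algebraMap O L a) < 1) ∧
      (∀ x : L, x ≠ 0 → (fun v : V => v.val x).HasFiniteMulSupport) ∧
      ∀ a : O, a ≠ 0 → ∏ᶠ v : V, v.val (algebraMap O L a) = D (Ideal.span {a}) := by
  classical
  have hpos : ∀ P : HeightOneSpectrum O, 0 < D P.asIdeal := fun P => (hD _ P.ne_bot).1
  let S := {P : HeightOneSpectrum O // D P.asIdeal < 1}
  let b : S → ℝ≥0 := fun P => ⟨(D P.1.asIdeal)⁻¹, inv_nonneg.2 (hpos P.1).le⟩
  have hb : ∀ P : S, 1 < b P := fun P => by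
    rw [← NNReal.coe_lt_coe]
    exact (one_lt_inv₀ (hpos P.1)).2 P.2
  let w : S → AbsoluteValue L ℝ := fun P => P.1.adicAbv (K := L) (hb P)
  have hlt : ∀ (P : S) (r : O), w P (algebraMap O L r) < 1 ↔ r ∈ P.1.asIdeal := fun P r =>
    P.1.adicAbv_coe_lt_one_iff (K := L) (hb P) r
  have heq : ∀ (P : S) (r : O), w P (algebraMap O L r) = 1 ↔ r ∉ P.1.asIdeal := fun P r =>
    P.1.adicAbv_coe_eq_one_iff (K := L) (hb P) r
  have hinj : Injective w := by
    intro P Q hPQ
    apply Subtype.ext
    apply HeightOneSpectrum.ext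
    ext r
    rw [← hlt P, ← hlt Q, hPQ]
  have hfac : ∀ a : O, a ≠ 0 → {P : S | a ∈ P.1.asIdeal}.Finite := by
    intro a ha
    have h : {v : HeightOneSpectrum O | v.asIdeal ∣ Ideal.span {a}}.Finite := by
      apply Ideal.finite_factors
      simpa using ha
    refine Set.Finite.subset (Set.Finite.preimage Subtype.val_injective.injOn h) fun P hP => ?_
    exact Ideal.dvd_span_singleton.2 hP
  have hS : ∀ x : L, x ≠ 0 → {P : S | w P x ≠ 1}.Finite := by
    intro x hx
    obtain ⟨a, c, hc, rfl⟩ := IsFractionRing.div_surjective O x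
    have ha : a ≠ 0 := by
      rintro rfl
      simp at hx
    have hc0 : c ≠ 0 := nonZeroDivisors.ne_zero hc
    refine ((hfac a ha).union (hfac c hc0)).subset fun P hP => ?_
    by_contra hn
    simp only [Set.mem_union, Set.mem_ofPred_eq, not_or] at hn
    apply hP
    rw [map_div₀, (heq P a).2 hn.1, (heq P c).2 hn.2, div_one]
  have hbij : Bijective (Set.rangeFactorization w) :=
    ⟨fun P Q h => hinj (congrArg Subtype.val h), Set.rangeFactorization_surjective⟩
  refine ⟨Set.range w, ?_, ?_, ?_, ?_, ?_⟩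
  · rintro _ ⟨P, rfl⟩
    exact P.1.isNonarchimedean_adicAbv (K := L) (hb P)
  · rintro _ ⟨P, rfl⟩ a
    exact P.1.adicAbv_coe_le_one (K := L) (hb P) a
  · rintro _ ⟨P, rfl⟩
    exact ⟨P.1.asIdeal, P.1.isPrime, P.1.ne_bot, P.2, fun a ha => (hlt P a).2 ha⟩
  · intro x hx
    refine ((hS x hx).image (Set.rangeFactorization w)).subset ?_
    rintro ⟨_, P, rfl⟩ hv
    exact ⟨P, hv, rfl⟩
  · intro a ha
    have hI : Ideal.span {a} ≠ 0 := by simpa using ha
    rw [← finprod_eq_of_bijective (f := fun P : S => D (P.1.maxPowDividing (Ideal.span {a})))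
      (Set.rangeFactorization w) hbij ?_]
    · rw [show (∏ᶠ P : S, D (P.1.maxPowDividing (Ideal.span {a}))) =
        ∏ᶠ P : HeightOneSpectrum O, D (P.maxPowDividing (Ideal.span {a})) from ?_]
      · rw [← map_finprod D (Ideal.hasFiniteMulSupport hI),
          Ideal.finprod_heightOneSpectrum_factorization hI]
      · rw [finprod_subtype_eq_finprod_cond (f := fun P : HeightOneSpectrum O =>
          D (P.maxPowDividing (Ideal.span {a}))) (fun P : HeightOneSpectrum O => D P.asIdeal < 1)]
        refine finprod_congr fun P => ?_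
        by_cases h : D P.asIdeal < 1
        · simp [h]
        · have h1 : D P.asIdeal = 1 := le_antisymm (hD _ P.ne_bot).2 (not_lt.1 h)
          simp [h1, HeightOneSpectrum.maxPowDividing]
    · intro P
      have h := Q1_val (L := L) P.1 (hb P) ha
      rw [HeightOneSpectrum.maxPowDividing, map_pow]
      change _ = w P (algebraMap O L a)
      change w P (algebraMap O L a) * ((D P.1.asIdeal)⁻¹) ^ _ = 1 at h
      rw [inv_pow] at h
      have hne : D P.1.asIdeal ^ ((Associates.mk P.1.asIdeal).count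
        (Associates.mk (Ideal.span {a})).factors) ≠ 0 := pow_ne_zero _ (hpos P.1).ne'
      field_simp at h
      exact h.symm

end Pool.Agent.Helper81.FAM
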